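import Mathlib

/-!
MP_6677ae_co.  The assertion of Q1 (equal lazy burning numbers force equal burning numbers) is
false, and the two burning numbers can differ by an arbitrary amount.

The hypergraph is the path on `n + 1` vertices (edges of size two) together with one edge that
contains all the vertices.
-/

set_option autoImplicit false

namespace Pool.Agent.Results.MP_6677ae_co.UnboundedGap

open Finset

variable {V : Type} [Fintype V] [DecidableEq V]

/-- The spread rule of proportion `p` on the hypergraph with edge set `E`: from the set `F` of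
burning vertices one reaches `F` together with all vertices of all edges `e` that have at least
`⌈p |e|⌉` vertices in `F`. -/
noncomputable def spread (p : ℝ) (E : Finset (Finset V)) (F : Finset V) : Finset V :=
  F ∪ (E.filter (fun e => ⌈p * (e.card : ℝ)⌉₊ ≤ (e ∩ F).card)).biUnion id

/-- Round-based game: the set of burning vertices at the end of round `r`, when the player
sets `u 0, u 1, u 2, …` on fire in rounds `1, 2, 3, …`. -/
noncomputable def fire (p : ℝ) (E : Finset (Finset V)) (u : ℕ → V) : ℕ → Finset V
  | 0 => ∅
  | r + 1 => spread p E (fire p E u r) ∪ {u r}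

/-- `u 0, …, u (k - 1)` is a burning sequence: each chosen vertex is not burning at the end of
the preceding round, and after round `k` everything burns. -/
def IsBurningSequence (p : ℝ) (E : Finset (Finset V)) (k : ℕ) (u : ℕ → V) : Prop :=
  (∀ r < k, u r ∉ fire p E u r) ∧ fire p E u k = univ

/-- The burning number `b_p(H)`: the minimum length of a burning sequence. -/
noncomputable def burningNumber (p : ℝ) (E : Finset (Finset V)) : ℕ :=
  sInf {k : ℕ | ∃ u : ℕ → V, IsBurningSequence p E k u}

/-- Lazy game: the set of burning vertices after `r` applications of the spread rule to `S`. -/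
noncomputable def lazyFire (p : ℝ) (E : Finset (Finset V)) (S : Finset V) : ℕ → Finset V
  | 0 => S
  | r + 1 => spread p E (lazyFire p E S r)

/-- The lazy burning number `b_{L,p}(H)`: the minimum size of a set from which everything burns
eventually. -/
noncomputable def lazyBurningNumber (p : ℝ) (E : Finset (Finset V)) : ℕ :=
  sInf {k : ℕ | ∃ S : Finset V, S.card = k ∧ ∃ r, lazyFire p E S r = univ}

omit [Fintype V] in
lemma subset_spread (p : ℝ) (E : Finset (Finset V)) (F : Finset V) : F ⊆ spread p E F :=
  subset_union_left

omit [Fintype V] in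
lemma edge_subset_spread {p : ℝ} {E : Finset (Finset V)} {F e : Finset V} (he : e ∈ E)
    (h : ⌈p * (e.card : ℝ)⌉₊ ≤ (e ∩ F).card) : e ⊆ spread p E F := by
  refine subset_trans ?_ subset_union_right
  exact Finset.subset_biUnion_of_mem id (mem_filter.2 ⟨he, h⟩)

/-- A burning sequence exists (the player sets an arbitrary vertex on fire that is not yet
burning). -/
lemma exists_burning [Nonempty V] (p : ℝ) (E : Finset (Finset V)) :
    ∃ k, ∃ u : ℕ → V, IsBurningSequence p E k u := by
  classical
  let ch : Finset V → V := fun F => if h : ∃ v, v ∉ F then Classical.choose h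
    else Classical.arbitrary V
  have hch : ∀ F : Finset V, F ≠ univ → ch F ∉ F := by
    intro F hF
    have h : ∃ v, v ∉ F := by
      by_contra hcon
      push Not at hcon
      exact hF (Finset.eq_univ_of_forall hcon)
    simp only [ch, h, dite_true]
    exact Classical.choose_spec h
  let g : ℕ → Finset V := fun r => Nat.rec ∅ (fun _ F => spread p E F ∪ {ch F}) r
  have hg : ∀ r, g (r + 1) = spread p E (g r) ∪ {ch (g r)} := fun r => rfl
  have hfire : ∀ r, fire p E (fun s => ch (g s)) r = g r := by
    intro r
    induction r with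
    | zero => rfl
    | succ r ih => rw [fire, ih, hg]
  have hex : ∃ r, g r = univ := by
    by_contra hcon
    push Not at hcon
    have hc : ∀ r, r ≤ (g r).card := by
      intro r
      induction r with
      | zero => exact Nat.zero_le _
      | succ r ih =>
        have h1 : insert (ch (g r)) (g r) ⊆ g (r + 1) := by
          rw [hg]
          intro x hx
          rw [mem_insert] at hx
          rcases hx with rfl | hx
          · exact mem_union_right _ (mem_singleton_self _)
          · exact mem_union_left _ (subset_spread _ _ _ hx)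
        have h2 := card_le_card h1
        rw [card_insert_of_notMem (hch _ (hcon r))] at h2
        omega
    have h3 := hc (Fintype.card V + 1)
    have h4 := card_le_univ (g (Fintype.card V + 1))
    omega
  obtain ⟨k, hk, hmin⟩ : ∃ k, g k = univ ∧ ∀ r < k, g r ≠ univ := by
    let P : ℕ → Prop := fun r => g r = univ
    have hP : ∃ r, P r := hex
    exact ⟨Nat.find hP, Nat.find_spec hP, fun r hr => Nat.find_min hP hr⟩
  refine ⟨k, fun s => ch (g s), ?_, ?_⟩
  · intro r hr
    rw [hfire]
    exact hch _ (hmin r hr)
  · rw [hfire]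
    exact hk

/-- The edge set of the example: the path edges `{i, i + 1}` and the set of all vertices. -/
def exE (n : ℕ) : Finset (Finset (Fin (n + 1))) :=
  insert univ ((univ : Finset (Fin n)).image (fun i => {i.castSucc, i.succ}))

lemma mem_exE {n : ℕ} {e : Finset (Fin (n + 1))} :
    e ∈ exE n ↔ e = univ ∨ ∃ i : Fin n, e = {i.castSucc, i.succ} := by
  unfold exE
  rw [mem_insert, mem_image]
  constructor
  · rintro (h | ⟨i, _, hi⟩)
    · exact Or.inl h
    · exact Or.inr ⟨i, hi.symm⟩
  · rintro (h | ⟨i, hi⟩)
    · exact Or.inl h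
    · exact Or.inr ⟨i, mem_univ _, hi.symm⟩

lemma card_pair_edge {n : ℕ} (i : Fin n) : ({i.castSucc, i.succ} : Finset (Fin (n + 1))).card = 2 :=
  card_pair (ne_of_lt (Fin.castSucc_lt_succ))

/-- thresholds of a path edge -/
lemma ceil_pair {p : ℝ} (hp0 : 0 < p) (hp : p ≤ 1 / 2) : ⌈p * ((2 : ℕ) : ℝ)⌉₊ = 1 := by
  rw [Nat.ceil_eq_iff (by norm_num)]
  constructor
  · push_cast; linarith
  · push_cast; linarith

/-- the empty set does not spread -/
lemma spread_empty {n : ℕ} {p : ℝ} (hp0 : 0 < p) : spread p (exE n) ∅ = ∅ := by
  unfold spread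
  rw [empty_union]
  have : (exE n).filter (fun e => ⌈p * (e.card : ℝ)⌉₊ ≤ (e ∩ ∅).card) = ∅ := by
    rw [filter_eq_empty_iff]
    intro e he hcon
    rw [inter_empty, card_empty, Nat.le_zero, Nat.ceil_eq_zero] at hcon
    have h2 : 0 < e.card := by
      rw [mem_exE] at he
      rcases he with rfl | ⟨i, rfl⟩
      · rw [card_univ, Fintype.card_fin]; omega
      · rw [card_pair_edge]; omega
    have h3 : (0 : ℝ) < e.card := by exact_mod_cast h2
    nlinarith
  rw [this, biUnion_empty]

/-- In the path every initial segment spreads. -/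
lemma lazy_path {n : ℕ} {p : ℝ} (hp0 : 0 < p) (hp : p ≤ 1 / 2) (r : ℕ) (x : Fin (n + 1))
    (hx : x.val ≤ r) : x ∈ lazyFire p (exE n) {0} r := by
  induction r generalizing x with
  | zero =>
    have : x = 0 := Fin.ext (by simpa using hx)
    rw [this, lazyFire]
    exact mem_singleton_self _
  | succ r ih =>
    rw [lazyFire]
    rcases Nat.lt_or_ge x.val (r + 1) with h | h
    · exact subset_spread _ _ _ (ih x (by omega))
    · have hxr : x.val = r + 1 := by omega
      have hrn : r < n := by have := x.isLt; omega
      let i : Fin n := ⟨r, hrn⟩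
      have hxi : x = i.succ := Fin.ext (by simp [i, hxr])
      have hi : i.castSucc ∈ lazyFire p (exE n) {0} r := ih _ (by simp [i])
      have he : ({i.castSucc, i.succ} : Finset (Fin (n + 1))) ∈ exE n := mem_exE.2 (Or.inr ⟨i, rfl⟩)
      refine edge_subset_spread he ?_ (hxi ▸ by simp)
      rw [card_pair_edge, ceil_pair hp0 hp]
      exact card_pos.2 ⟨i.castSucc, mem_inter.2 ⟨by simp, hi⟩⟩

lemma lazy_eq_one {n : ℕ} {p : ℝ} (hp0 : 0 < p) (hp : p ≤ 1 / 2) :
    lazyBurningNumber p (exE n) = 1 := by
  unfold lazyBurningNumber
  have h1 : 1 ∈ {k : ℕ | ∃ S : Finset (Fin (n + 1)), S.card = k ∧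
      ∃ r, lazyFire p (exE n) S r = univ} := by
    refine ⟨{0}, card_singleton _, n, ?_⟩
    exact eq_univ_of_forall fun x => lazy_path hp0 hp n x (by have := x.isLt; omega)
  have h0 : 0 ∉ {k : ℕ | ∃ S : Finset (Fin (n + 1)), S.card = k ∧
      ∃ r, lazyFire p (exE n) S r = univ} := by
    rintro ⟨S, hS, r, hr⟩
    rw [card_eq_zero] at hS
    subst hS
    have : ∀ r, lazyFire p (exE n) ∅ r = ∅ := by
      intro r
      induction r with
      | zero => rfl
      | succ r ih => rw [lazyFire, ih, spread_empty hp0]
    rw [this] at hr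
    exact absurd hr.symm (univ_nonempty.ne_empty)
  have h2 : sInf {k : ℕ | ∃ S : Finset (Fin (n + 1)), S.card = k ∧
      ∃ r, lazyFire p (exE n) S r = univ} ≤ 1 := Nat.sInf_le h1
  have h3 : sInf {k : ℕ | ∃ S : Finset (Fin (n + 1)), S.card = k ∧
      ∃ r, lazyFire p (exE n) S r = univ} ≠ 0 := by
    intro h
    have := Nat.sInf_mem (⟨1, h1⟩ : Set.Nonempty _)
    rw [h] at this
    exact h0 this
  omega

/-- If the big edge is not triggered, the number of burning vertices at most triples in a
round, up to the chosen vertex. -/
lemma card_spread_le {n : ℕ} {q : ℝ} (hq0 : 0 < q) (F : Finset (Fin (n + 1)))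
    (hF : F.card < ⌈q * ((n + 1 : ℕ) : ℝ)⌉₊) : (spread q (exE n) F).card ≤ 3 * F.card := by
  have hsub : spread q (exE n) F ⊆ F.biUnion (fun v => (univ : Finset (Fin (n + 1))).filter
      (fun w => w.val = v.val ∨ w.val = v.val + 1 ∨ w.val + 1 = v.val)) := by
    intro x hx
    unfold spread at hx
    rw [mem_union] at hx
    rcases hx with hx | hx
    · exact mem_biUnion.2 ⟨x, hx, by simp⟩
    · rw [mem_biUnion] at hx
      obtain ⟨e, he, hxe⟩ := hx
      rw [mem_filter] at he
      obtain ⟨heE, hec⟩ := he
      simp only [id] at hxe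
      rw [mem_exE] at heE
      rcases heE with rfl | ⟨i, rfl⟩
      · rw [univ_inter, card_univ, Fintype.card_fin] at hec
        omega
      · rw [card_pair_edge] at hec
        have h1 : 0 < ⌈q * ((2 : ℕ) : ℝ)⌉₊ := by
          rw [Nat.ceil_pos]; push_cast; linarith
        obtain ⟨v, hv⟩ := card_pos.1 (lt_of_lt_of_le h1 hec)
        rw [mem_inter] at hv
        refine mem_biUnion.2 ⟨v, hv.2, ?_⟩
        have hv1 := hv.1
        rw [mem_insert, mem_singleton] at hv1 hxe
        rw [mem_filter]
        refine ⟨mem_univ _, ?_⟩
        rcases hv1 with rfl | rfl <;> rcases hxe with rfl | rfl <;>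
          simp [Fin.val_succ]
  refine (card_le_card hsub).trans ?_
  refine card_biUnion_le.trans ?_
  rw [mul_comm, ← smul_eq_mul, ← sum_const]
  refine sum_le_sum fun v _ => ?_
  have h3 : ((univ : Finset (Fin (n + 1))).filter
      (fun w => w.val = v.val ∨ w.val = v.val + 1 ∨ w.val + 1 = v.val)).image (fun w => w.val) ⊆
      {v.val, v.val + 1, v.val - 1} := by
    intro y hy
    rw [mem_image] at hy
    obtain ⟨w, hw, rfl⟩ := hy
    rw [mem_filter] at hw
    simp only [mem_insert, mem_singleton]
    omega
  have h4 := card_le_card h3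
  rw [card_image_of_injective _ Fin.val_injective] at h4
  exact h4.trans card_le_three

/-- Q1 is false: for every `N` there are a hypergraph `H` (with vertex set `Fin (n + 1)` and edge
set `E`) and proportions `p, q ∈ (0, 1)` such that `b_{L,p}(H) = b_{L,q}(H)` and
`b_q(H) > b_p(H) + N`. -/
theorem result : ∀ N : ℕ, ∃ (n : ℕ) (E : Finset (Finset (Fin (n + 1)))) (p q : ℝ),
    (0 < p ∧ p < 1) ∧ (0 < q ∧ q < 1) ∧
    lazyBurningNumber p E = lazyBurningNumber q E ∧
    burningNumber p E + N < burningNumber q E := by
  intro N
  set n : ℕ := 2 * 3 ^ (N + 2) + 1 with hn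
  have h3pos : 0 < 3 ^ (N + 2) := by positivity
  have hn1 : (1 : ℝ) ≤ (n : ℝ) := by
    have : 1 ≤ n := by omega
    exact_mod_cast this
  refine ⟨n, exE n, 1 / (2 * (n + 1 : ℝ)), 1 / 2, ⟨by positivity, ?_⟩, ⟨by norm_num, by norm_num⟩, ?_, ?_⟩
  · rw [div_lt_one (by positivity)]; linarith
  · rw [lazy_eq_one (by positivity), lazy_eq_one (by norm_num) le_rfl]
    rw [div_le_div_iff₀ (by positivity) (by norm_num)]
    linarith
  · -- the burning number for `p` is at most two
    have hp : burningNumber (1 / (2 * (n + 1 : ℝ))) (exE n) ≤ 2 := by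
      apply Nat.sInf_le
      refine ⟨fun r => if r = 0 then 0 else 1, ?_, ?_⟩
      · intro r hr
        have h01 : (0 : Fin (n + 1)) ≠ 1 := by
          intro h
          have h1 := congrArg Fin.val h
          have h2 : (1 : Fin (n + 1)).val = 1 % (n + 1) := rfl
          rw [Fin.val_zero, h2, Nat.mod_eq_of_lt (by omega)] at h1
          omega
        have hr' : r = 0 ∨ r = 1 := by omega
        rcases hr' with rfl | rfl
        · simp [fire]
        · simp only [one_ne_zero, if_false, fire]
          rw [spread_empty (by positivity), empty_union, mem_singleton]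
          simp only [if_true]
          exact h01.symm
      · have h1 : fire (1 / (2 * (n + 1 : ℝ))) (exE n) (fun r => if r = 0 then 0 else 1) 1
            = {0} := by
          simp only [fire]
          rw [spread_empty (by positivity), empty_union]
          simp
        rw [fire, h1]
        refine eq_univ_of_forall fun x => mem_union_left _ ?_
        refine edge_subset_spread (e := univ) (mem_exE.2 (Or.inl rfl)) ?_ (mem_univ x)
        rw [univ_inter, card_univ, Fintype.card_fin, card_singleton]
        rw [Nat.ceil_le]
        push_cast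
        rw [one_div, mul_inv, mul_assoc, inv_mul_cancel₀ (by positivity)]
        norm_num
    -- the burning number for `q` is larger than `N + 2`
    have hq : N + 2 < burningNumber (1 / 2) (exE n) := by
      by_contra hcon
      push Not at hcon
      obtain ⟨u, hu1, hu2⟩ := Nat.sInf_mem (exists_burning (1 / 2 : ℝ) (exE n))
      change fire (1 / 2) (exE n) u (burningNumber (1 / 2) (exE n)) = univ at hu2
      have hceil : 3 ^ (N + 2) < ⌈(1 / 2 : ℝ) * ((n + 1 : ℕ) : ℝ)⌉₊ := by
        rw [Nat.lt_ceil]
        have : (n : ℝ) = 2 * (3 : ℝ) ^ (N + 2) + 1 := by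
          rw [hn]; push_cast; ring
        push_cast
        rw [this]
        linarith
      have hcard : ∀ r, r ≤ N + 2 → 2 * (fire (1 / 2) (exE n) u r).card + 1 ≤ 3 ^ r := by
        intro r
        induction r with
        | zero => intro _; simp [fire]
        | succ r ih =>
          intro hr
          have h1 := ih (by omega)
          have h2 : 3 ^ r ≤ 3 ^ (N + 2) := Nat.pow_le_pow_right (by norm_num) (by omega)
          have h3 := card_spread_le (q := 1 / 2) (by norm_num) (fire (1 / 2) (exE n) u r)
            (by omega)
          rw [fire]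
          have h4 := card_union_le (spread (1 / 2) (exE n) (fire (1 / 2) (exE n) u r)) {u r}
          rw [card_singleton] at h4
          rw [pow_succ]
          omega
      have h5 := hcard _ hcon
      rw [hu2, card_univ, Fintype.card_fin] at h5
      have h6 : 3 ^ (burningNumber (1 / 2) (exE n)) ≤ 3 ^ (N + 2) :=
        Nat.pow_le_pow_right (by norm_num) hcon
      omega
    omega

end Pool.Agent.Results.MP_6677ae_co.UnboundedGap
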